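import Pool.Agent.Helper57.THA.St
import Pool.Agent.Helper71.LINE.Two

/-! Row OUTF of THEOREM A: a function of one point of a curve whose increments are polynomials in the two times is a
polynomial in the time; the coefficients are known to the line, the constant term to the curve. -/

set_option autoImplicit false

namespace Pool.Agent.Helper80.THA

open Finset Filter Topology Pool.Agent.Helper69.RK Pool.Agent.Helper31.EC Pool.Agent.Helper31.EC.Sp
open Pool.Agent.Helper31.EC.QS Pool.Agent.Helper57.TA Pool.Agent.Helper57.THA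
open Pool.Agent.Helper14.WLK (Ag exists_lvar I_block)

noncomputable section

/-- two copies over a literal variable and finitely many functions -/
theorem exists_copyV {W : Sp} {α : ℕ → Type} {V : ∀ k, (W.F k).Ω → α k} (hV : Bdd V) {ι : Type} [Fintype ι]
    (f : ι → QS W) : ∃ (D : Sp) (p1 p2 : Pj D W), Ag V p1 p2 ∧ (∀ i, p1.qs (f i) = p2.qs (f i)) ∧
      ∀ x y, I (p1.map x) (p2.map y) (p1.map (io V ⊔ vd f 1)) = 0 := by
  obtain ⟨γ, U, hU, hUi, ⟨e, he⟩, hUf⟩ := exists_lvar hV f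
  obtain ⟨C⟩ := Cps.exists U hU 1
  have h1 : Ag U (C.p 0) (C.p 1) := fun k w hw => C.agree k w hw 0 1
  refine ⟨C.W, C.p 0, C.p 1, h1.fn e he, hUf _ _ _ h1, fun x y => ?_⟩
  rw [← hUi]
  have h2 := I_block C (s := {0}) (t := {1}) (by
    rw [Finset.disjoint_singleton]
    exact zero_ne_one) (fun _ => x) (fun _ => y)
  rw [Finset.sup_singleton, Finset.sup_singleton] at h2
  exact h2

/-- evaluation in one variable -/
theorem pe_of_mv {S : Sp} (t : QS S) (Q : MvPolynomial (Fin 1) (QS S)) :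
    pe (fun j : Fin (Q.totalDegree + 1) => Q.coeff (Finsupp.single 0 (j : ℕ))) t =
      MvPolynomial.eval (fun _ => t) Q := by
  classical
  obtain ⟨N, hN⟩ : ∃ N, N = Q.totalDegree := ⟨_, rfl⟩
  rw [← hN, MvPolynomial.eval_eq']
  unfold pe
  rw [Fin.sum_univ_eq_sum_range (fun j => Q.coeff (Finsupp.single 0 j) * t ^ j) (N + 1)]
  have h1 : ∑ j ∈ Finset.range (N + 1), Q.coeff (Finsupp.single 0 j) * t ^ j =
      ∑ m ∈ (Finset.range (N + 1)).image (fun j => (Finsupp.single 0 j : Fin 1 →₀ ℕ)),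
        Q.coeff m * ∏ i, t ^ m i := by
    rw [Finset.sum_image]
    · apply Finset.sum_congr rfl
      intro j _
      rw [Fin.prod_univ_one, Finsupp.single_eq_same]
    · intro i _ j _ hij
      exact Finsupp.single_injective _ hij
  rw [h1]
  symm
  apply Finset.sum_subset
  · intro m hm
    rw [Finset.mem_image]
    have h2 : m = Finsupp.single 0 (m 0) := by
      refine Finsupp.ext fun i => ?_
      rw [Subsingleton.elim i 0, Finsupp.single_eq_same]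
    refine ⟨m 0, ?_, h2.symm⟩
    rw [Finset.mem_range, hN]
    have h3 := MvPolynomial.le_totalDegree hm
    have h4 : (m.sum fun _ e => e) = m 0 := by
      rw [h2, Finsupp.sum_single_index rfl, Finsupp.single_eq_same]
    omega
  · intro m _ hm
    rw [MvPolynomial.notMem_support_iff.mp hm, zero_mul]

theorem st_OUTF : ST_OUTF := by
  intro S W P P' al U B t a κ hU hκ0 hκ hAg hB hPB hI ht ha g hg he
  obtain ⟨b, hb⟩ : ∃ b, b = P.map B := ⟨_, rfl⟩
  obtain ⟨u, hu⟩ : ∃ u, u = P.map (io U) := ⟨_, rfl⟩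
  have hu' : P'.map (io U) = u := by
    rw [hu]
    exact (hAg.map_io hU).symm
  have hbu : b ≤ u := by
    rw [hb, hu]
    exact P.map_mono hB
  obtain ⟨τ, hτ⟩ : ∃ τ, τ = P.qs t := ⟨_, rfl⟩
  obtain ⟨τ', hτ'⟩ : ∃ τ', τ' = P'.qs t := ⟨_, rfl⟩
  rw [← hb] at hg
  rw [← hτ, ← hτ'] at he
  have k0 : h (dg τ 1) u = 1 := by rw [hτ, hu, P.qs_dg, P.h_map, ht]
  have k0' : h (dg τ' 1) u = 1 := by rw [hτ', ← hu', P'.qs_dg, P'.h_map, ht]
  have k1 : h (dg τ' 1) (u ⊔ dg τ 1) = 1 := by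
    have h1 := hI (dg t 1) (dg t 1)
    rw [← P.qs_dg, ← P'.qs_dg, ← hτ, ← hτ', ← hu, I_zero_iff_h'] at h1
    rw [sup_comm, h1, k0']
  have k2 : h (dg τ' 1) b = 1 := le_antisymm (h_dg_le_one _ _) (k0'.ge.trans (h_anti hbu))
  have ha1 : dg (P.qs a) 1 ≤ u ⊔ dg τ 1 := by
    rw [P.qs_dg, hu, hτ, P.qs_dg, ← P.map_sup]
    exact P.map_mono ha
  have ha2 : dg (P'.qs a) 1 ≤ u ⊔ dg τ' 1 := by
    rw [P'.qs_dg, ← hu', hτ', P'.qs_dg, ← P'.map_sup]
    exact P'.map_mono ha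
  -- the polynomial in the first time
  obtain ⟨G, hG⟩ : ∃ G : MvPolynomial (Fin 1) (QS W),
      G = MvPolynomial.aeval ![MvPolynomial.X 0, MvPolynomial.C τ'] g := ⟨_, rfl⟩
  obtain ⟨Y, hY⟩ : ∃ Y : MvPolynomial (Fin 1) (QS W), Y = MvPolynomial.C (P'.qs a) - G := ⟨_, rfl⟩
  have hYe : MvPolynomial.eval (fun _ => τ) Y = P'.qs a - MvPolynomial.eval ![τ, τ'] g := by
    rw [hY, hG, map_sub, MvPolynomial.eval_C, eval_sbs]
    congr 2
    apply congrArg (fun z => MvPolynomial.eval z)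
    funext i
    fin_cases i
    · show MvPolynomial.eval _ (MvPolynomial.X 0) = τ
      rw [MvPolynomial.eval_X]
    · show MvPolynomial.eval _ (MvPolynomial.C τ') = τ'
      rw [MvPolynomial.eval_C]
  have hGk : G ∈ PK (b ⊔ dg τ' 1) := by
    rw [hG]
    apply sbs_PK (PK_mono le_sup_left hg)
    intro i
    fin_cases i
    · exact X_mem _ _
    · exact C_mem le_sup_right
  have hYk : Y ∈ PK (u ⊔ dg τ' 1) := by
    rw [hY]
    exact (PK _).sub_mem (C_mem ha2) (PK_mono (sup_le_sup_right hbu _) hGk)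
  have hYb : ∀ m, m ≠ 0 → dg (Y.coeff m) 1 ≤ b ⊔ dg τ' 1 := by
    intro m hm
    have h1 : -G ∈ PK (b ⊔ dg τ' 1) := (PK _).neg_mem hGk
    have h2 := h1 m
    rw [MvPolynomial.coeff_neg] at h2
    rw [hY, MvPolynomial.coeff_sub, MvPolynomial.coeff_C, if_neg (Ne.symm hm), zero_sub]
    exact h2
  have hYa : P.qs a - MvPolynomial.eval (fun _ => τ) Y ∈ Id W κ := by
    rw [hYe]
    have h1 := (Id W κ).neg_mem he
    have e : -(P'.qs a - P.qs a - MvPolynomial.eval ![τ, τ'] g) =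
        P.qs a - (P'.qs a - MvPolynomial.eval ![τ, τ'] g) := by ring
    rwa [e] at h1
  -- the copies
  have hV : Bdd fun k w => U k (P.π k w) := (P.bdd_iff U).mpr hU
  have hVi : io (fun k w => U k (P.π k w)) = u := by rw [hu, P.map_io]
  obtain ⟨D, p1, p2, hAgD, hc, hID⟩ := exists_copyV hV ![τ, P.qs a]
  have hvd : io (fun k w => U k (P.π k w)) ⊔ vd ![τ, P.qs a] 1 = u ⊔ dg τ 1 := by
    rw [hVi]
    apply le_antisymm
    · apply sup_le le_sup_left
      rw [vd_le]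
      intro i
      fin_cases i
      · exact le_sup_right
      · exact ha1
    · exact sup_le_sup_left (dg_le_vd ![τ, P.qs a] 1 0) u
  rw [hvd] at hID
  have cτ : p1.qs τ = p2.qs τ := hc 0
  have ca : p1.qs (P.qs a) = p2.qs (P.qs a) := hc 1
  obtain ⟨β, hβ⟩ : ∃ β, β = p1.map u := ⟨_, rfl⟩
  have hβ' : p2.map u = β := by
    rw [hβ, ← hVi]
    exact (hAgD.map_io hV).symm
  obtain ⟨θ, hθ⟩ : ∃ θ, θ = p1.qs τ := ⟨_, rfl⟩
  obtain ⟨t1, ht1⟩ : ∃ t1, t1 = p1.qs τ' := ⟨_, rfl⟩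
  obtain ⟨t2, ht2⟩ : ∃ t2, t2 = p2.qs τ' := ⟨_, rfl⟩
  have hI' : ∀ x y, I (p1.map x) (p2.map y) (β ⊔ dg θ 1) = 0 := by
    intro x y
    have h1 := hID x y
    rw [p1.map_sup, ← p1.qs_dg, ← hβ, ← hθ] at h1
    exact h1
  have F1 : h (dg t1 1) (β ⊔ dg θ 1) = 1 := by
    rw [ht1, hβ, hθ, p1.qs_dg, p1.qs_dg, ← p1.map_sup, p1.h_map]
    exact k1
  have F2 : h (dg t2 1) (β ⊔ dg θ 1) = 1 := by
    rw [ht2, ← hβ', hθ, cτ, p2.qs_dg, p2.qs_dg, ← p2.map_sup, p2.h_map]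
    exact k1
  have F3 : h (dg θ 1) β = 1 := by
    rw [hθ, hβ, p1.qs_dg, p1.h_map]
    exact k0
  have F4 : h (dg t2 1) (dg t1 1 ⊔ (β ⊔ dg θ 1)) = 1 := by
    have h1 := hI' (dg τ' 1) (dg τ' 1)
    rw [← p1.qs_dg, ← p2.qs_dg, ← ht1, ← ht2, I_zero_iff_h'] at h1
    rw [h1, F2]
  have F5 : I (dg t1 1) (dg t2 1) β = 0 := by
    apply le_antisymm _ (I_nonneg _ _ _)
    rw [I_eq']
    have h1 : h (dg t2 1) (dg t1 1 ⊔ (β ⊔ dg θ 1)) ≤ h (dg t2 1) (dg t1 1 ⊔ β) :=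
      h_anti (sup_le_sup_left (le_sup_left : β ≤ β ⊔ dg θ 1) (dg t1 1))
    have h2 := h_dg_le_one t2 β
    linarith
  have F6 : h (dg θ 1) (β ⊔ (dg t1 1 ⊔ dg t2 1)) = 1 := by
    apply le_antisymm (h_dg_le_one _ _)
    have h1 := h_chain (dg θ 1) (dg t1 1 ⊔ dg t2 1) β
    have h2 := h_chain (dg t1 1) (dg t2 1) (dg θ 1 ⊔ β)
    have h3 := h_chain (dg t1 1 ⊔ dg t2 1) (dg θ 1) β
    have h4 := h_chain (dg t1 1) (dg t2 1) β
    rw [sup_comm (dg θ 1) β] at h2 h1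
    rw [F1, F4] at h2
    rw [h2, F3] at h1
    have h5 := h_dg_le_one t1 β
    have h6 := h_dg_le_one t2 (dg t1 1 ⊔ β)
    rw [sup_comm (dg t1 1 ⊔ dg t2 1) (dg θ 1), h1, sup_comm (dg t1 1 ⊔ dg t2 1) β] at h3
    linarith
  have hx : Rt 1 (fun _ : Fin 1 => θ) (β ⊔ (dg t1 1 ⊔ dg t2 1)) := by
    apply Rt.of_ge zero_le_one
    rw [Fintype.card_fin, Nat.cast_one, one_mul]
    refine F6.ge.trans ?_
    apply h_mono
    exact dg_le_vd (fun _ : Fin 1 => θ) 1 0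
  have hk1 : ∀ m, dg (p1.qs (Y.coeff m)) 1 ≤ β ⊔ dg t1 1 := by
    intro m
    rw [p1.qs_dg, hβ, ht1, p1.qs_dg, ← p1.map_sup]
    exact p1.map_mono (hYk m)
  have hk2 : ∀ m, dg (p2.qs (Y.coeff m)) 1 ≤ β ⊔ dg t2 1 := by
    intro m
    rw [p2.qs_dg, ← hβ', ht2, p2.qs_dg, ← p2.map_sup]
    exact p2.map_mono (hYk m)
  have hag : ∀ m, p1.qs (Y.coeff m) - p2.qs (Y.coeff m) ∈ Id D κ := by
    intro m
    have h1 := mv_small_unique one_pos le_rfl hx (P := MvPolynomial.map p1.qs Y) (Q := MvPolynomial.map p2.qs Y)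
      hκ le_rfl (PKr_of_PK le_rfl (fun m => by
        rw [MvPolynomial.coeff_map]
        exact (hk1 m).trans (sup_le_sup_left le_sup_left _)))
      (PKr_of_PK le_rfl (fun m => by
        rw [MvPolynomial.coeff_map]
        exact (hk2 m).trans (sup_le_sup_left le_sup_right _))) (by
        have h2 := (p1.qs_mem_Id hκ).mpr hYa
        have h3 := (p2.qs_mem_Id hκ).mpr hYa
        rw [map_sub, qs_eval] at h2 h3
        rw [← hθ] at h2
        rw [← ca, ← cτ, ← hθ] at h3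
        have h4 := (Id D κ).sub_mem h3 h2
        rwa [sub_sub_sub_cancel_left] at h4) m
    rwa [MvPolynomial.coeff_map, MvPolynomial.coeff_map] at h1
  have hYr : ∀ m, dg (Y.coeff m) κ ≤ u := by
    intro m
    rw [← p1.map_le, ← p1.qs_dg, ← hβ]
    refine le_of_markov (A := dg t1 1) (B := dg t2 1) ?_ ?_ F5
    · rw [sup_comm]
      exact (QS.dg_mono _ hκ).trans (hk1 m)
    · rw [dg_eq_of_sub_mem (hag m) le_rfl hκ, sup_comm]
      exact (QS.dg_mono _ hκ).trans (hk2 m)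
  have hYr2 : ∀ m, m ≠ 0 → dg (Y.coeff m) κ ≤ b := by
    intro m hm
    refine le_of_markov (A := u) (B := dg τ' 1) ((hYr m).trans le_sup_left) ?_ ?_
    · rw [sup_comm]
      exact (QS.dg_mono _ hκ).trans (hYb m hm)
    · rw [I_zero_iff_h', sup_eq_left.mpr hbu, k0', k2]
  have hxt : Rt 1 (fun _ : Fin 1 => t) (io U) := by
    apply Rt.of_ge zero_le_one
    rw [Fintype.card_fin, Nat.cast_one, one_mul]
    refine ht.ge.trans ?_
    apply h_mono
    exact dg_le_vd (fun _ : Fin 1 => t) 1 0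
  rw [hu] at hYr
  rw [hτ] at hYa
  obtain ⟨Q, hQ1, hQ2, hQ3⟩ := descend_coeff P a one_pos le_rfl hxt hκ0.le le_rfl hκ (P := Y) hYr hYa
  -- the coefficients
  have hr : ∀ m : Fin 1 →₀ ℕ, ∃ x : QS S, dg x 1 ≤ dg (Q.coeff m) κ ∧ Q.coeff m - x ∈ Id S κ :=
    fun m => exists_round _ hκ0.le hκ
  choose x hx1 hx2 using hr
  refine ⟨Q.totalDegree, fun j => x (Finsupp.single 0 (j : ℕ)), fun l => ?_, ?_, ?_⟩
  · refine (hx1 _).trans ?_
    have hm : (Finsupp.single 0 ((l.succ : Fin (Q.totalDegree + 1)) : ℕ) : Fin 1 →₀ ℕ) ≠ 0 := by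
      intro h0
      have h1 := Finsupp.single_eq_zero.mp h0
      rw [Fin.val_succ] at h1
      omega
    have h1 := hYr2 _ hm
    rw [← P.map_le, ← P.qs_dg, dg_eq_of_sub_mem (hQ2 _) le_rfl hκ, ← hb]
    exact h1
  · exact (hx1 _).trans ((QS.dg_mono _ hκ).trans (hQ1 _))
  · rw [← pe_of_mv t Q] at hQ3
    have h1 : pe (fun j : Fin (Q.totalDegree + 1) => Q.coeff (Finsupp.single 0 (j : ℕ))) t -
        pe (fun j : Fin (Q.totalDegree + 1) => x (Finsupp.single 0 (j : ℕ))) t ∈ Id S κ := by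
      unfold pe
      rw [← Finset.sum_sub_distrib]
      apply (Id S κ).sum_mem
      intro j _
      rw [← sub_mul]
      exact (Id S κ).mul_mem_right _ (hx2 _)
    have h2 := (Id S κ).add_mem hQ3 h1
    rwa [sub_add_sub_cancel] at h2

end

end Pool.Agent.Helper80.THA
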